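import Pool.Agent.Helper46.C2.St
import Pool.Agent.Helper41.DZ.CompSeries

/-! Assembly of project C2. -/

set_option autoImplicit false
set_option linter.unusedSimpArgs false

namespace Pool.Agent.Helper46.C2

open Pool.Agent.Helper41.DZ Pool.Agent.Helper43.GD

section free

/-- generators -/
def ga : FreeGroup (Fin 3) := FreeGroup.of 0
def gw : FreeGroup (Fin 3) := FreeGroup.of 1
def gt : FreeGroup (Fin 3) := FreeGroup.of 2

/-- the three relators -/
def r1 : FreeGroup (Fin 3) := (ga * gw * ga) * (gw * ga * gw⁻¹)⁻¹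

def r2 : FreeGroup (Fin 3) := (gw⁻¹ * gt * gw) * gt⁻¹⁻¹

def r3 (k : ℕ) : FreeGroup (Fin 3) := cj ga gt 1 * (ga * cj ga gt (k : ℤ))⁻¹

theorem map_cj {G H : Type} [Group G] [Group H] (f : G →* H) (a t : G) (i : ℤ) :
    f (cj a t i) = cj (f a) (f t) i := by
  unfold cj
  rw [map_mul, map_mul, map_zpow, map_zpow]

/-- exponent sum of `a` -/
def sumA : FreeGroup (Fin 3) →* Multiplicative ℤ :=
  FreeGroup.lift ![Multiplicative.ofAdd 1, 1, 1]

theorem sumA_a : sumA ga = Multiplicative.ofAdd 1 := by simp [sumA, ga]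
theorem sumA_w : sumA gw = 1 := by simp [sumA, gw]
theorem sumA_t : sumA gt = 1 := by simp [sumA, gt]

theorem sumA_r1 : sumA r1 = Multiplicative.ofAdd 1 := by
  simp only [r1, map_mul, map_inv, sumA_a, sumA_w]
  simp

theorem sumA_r2 : sumA r2 = 1 := by
  simp only [r2, map_mul, map_inv, sumA_w, sumA_t]
  simp

theorem sumA_r3 (k : ℕ) : sumA (r3 k) = Multiplicative.ofAdd (-1) := by
  have h1 : ∀ (A : Multiplicative ℤ) (i : ℤ), cj A 1 i = A := by
    intro A i
    simp [cj]
  rw [r3, map_mul, map_inv, map_mul, map_cj, map_cj, sumA_a, sumA_t, h1, h1,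
    ← ofAdd_add, ← ofAdd_neg, ← ofAdd_add]
  refine congrArg Multiplicative.ofAdd ?_
  ring

/-- the set of relators -/
noncomputable def rels (k : ℕ) : Finset (FreeGroup (Fin 3)) := by
  classical exact {r1, r2, r3 k}

theorem rels_card (k : ℕ) : (rels k).card = 3 := by
  classical
  have h12 : r1 ≠ r2 := by
    intro h
    have := congrArg sumA h
    rw [sumA_r1, sumA_r2] at this
    have h' : (1 : ℤ) = 0 := Multiplicative.ofAdd.injective this
    omega
  have h13 : r1 ≠ r3 k := by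
    intro h
    have := congrArg sumA h
    rw [sumA_r1, sumA_r3] at this
    have h' : (1 : ℤ) = -1 := Multiplicative.ofAdd.injective this
    omega
  have h23 : r2 ≠ r3 k := by
    intro h
    have := congrArg sumA h
    rw [sumA_r2, sumA_r3] at this
    have h' : (0 : ℤ) = -1 := Multiplicative.ofAdd.injective this
    omega
  rw [rels]
  convert Finset.card_eq_three.2 ⟨r1, r2, r3 k, h12, h13, h23, rfl⟩

theorem mem_rels {k : ℕ} (w : FreeGroup (Fin 3)) :
    w ∈ (rels k : Set (FreeGroup (Fin 3))) ↔ w = r1 ∨ w = r2 ∨ w = r3 k := by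
  classical
  simp [rels]

theorem rel_iff {G : Type} [Group G] (f : FreeGroup (Fin 3) →* G) (k : ℕ) :
    Rel k (f ga) (f gw) (f gt) ↔ f r1 = 1 ∧ f r2 = 1 ∧ f (r3 k) = 1 := by
  unfold Rel
  have e1 : f r1 = 1 ↔ f ga * f gw * f ga = f gw * f ga * (f gw)⁻¹ := by
    rw [r1, map_mul, map_inv, mul_inv_eq_one]
    simp only [map_mul, map_inv]
  have e2 : f r2 = 1 ↔ (f gw)⁻¹ * f gt * f gw = (f gt)⁻¹ := by
    rw [r2, map_mul, map_inv, mul_inv_eq_one]
    simp only [map_mul, map_inv]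
  have e3 : f (r3 k) = 1 ↔ cj (f ga) (f gt) 1 = f ga * cj (f ga) (f gt) (k : ℤ) := by
    rw [r3, map_mul, map_inv, mul_inv_eq_one, map_mul, map_cj, map_cj]
  rw [e1, e2, e3]

end free

theorem main (hPB : StPB) (hTG : StTG) (n : ℕ) (h2 : 2 ≤ n) :
    ∃ (G : Type) (_ : Group G), Finite G ∧ DeficiencyZero G ∧
      IsCompositionFactor (Matrix.ProjectiveSpecialLinearGroup (Fin 2) (GaloisField 2 n)) G := by
  obtain ⟨k, hk, T, _, a, w, t, hrelT, hTr⟩ := hTG n h2
  let R := rels k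
  let G := PresentedGroup (R : Set (FreeGroup (Fin 3)))
  let π : FreeGroup (Fin 3) →* G := PresentedGroup.mk (R : Set (FreeGroup (Fin 3)))
  have hrel : Rel k (π ga) (π gw) (π gt) := by
    rw [rel_iff]
    exact ⟨PresentedGroup.one_of_mem ((mem_rels _).2 (Or.inl rfl)),
      PresentedGroup.one_of_mem ((mem_rels _).2 (Or.inr (Or.inl rfl))),
      PresentedGroup.one_of_mem ((mem_rels _).2 (Or.inr (Or.inr rfl)))⟩
  have hgen : Subgroup.closure {π ga, π gw, π gt} = (⊤ : Subgroup G) := by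
    rw [← PresentedGroup.closure_range_of (R : Set (FreeGroup (Fin 3)))]
    congr 1
    ext g
    constructor
    · rintro (rfl | rfl | rfl)
      · exact ⟨0, rfl⟩
      · exact ⟨1, rfl⟩
      · exact ⟨2, rfl⟩
    · rintro ⟨b, rfl⟩
      fin_cases b
      · exact Or.inl rfl
      · exact Or.inr (Or.inl rfl)
      · exact Or.inr (Or.inr rfl)
  have hfin : Finite G := hPB G k (π ga) (π gw) (π gt) hk hrel hgen
  have hdef : DeficiencyZero G :=
    ⟨Fin 3, inferInstance, R, by rw [rels_card]; rfl, ⟨MulEquiv.refl _⟩⟩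
  let ρ : FreeGroup (Fin 3) →* T := FreeGroup.lift ![a, w, t]
  have ρa : ρ ga = a := by simp [ρ, ga]
  have ρw : ρ gw = w := by simp [ρ, gw]
  have ρt : ρ gt = t := by simp [ρ, gt]
  have hρ := (rel_iff ρ k).1 (by rw [ρa, ρw, ρt]; exact hrelT)
  have hrels : ∀ w' ∈ (R : Set (FreeGroup (Fin 3))), FreeGroup.lift ![a, w, t] w' = 1 := by
    intro w' hw'
    rcases (mem_rels w').1 hw' with rfl | rfl | rfl
    · exact hρ.1
    · exact hρ.2.1
    · exact hρ.2.2
  let φ : G →* T := PresentedGroup.toGroup hrels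
  have hφ : ∀ i : Fin 3, φ (PresentedGroup.of i) = ![a, w, t] i := fun i =>
    PresentedGroup.toGroup.of hrels (x := i)
  obtain ⟨L, hL, f', hf'⟩ := hTr G φ (π ga) (π gw) (π gt) (hφ 0) (hφ 1) (hφ 2) hgen
  have hcard : 4 ≤ Nat.card (GaloisField 2 n) := by
    rw [GaloisField.card 2 n (by omega)]
    calc 4 = 2 ^ 2 := by norm_num
      _ ≤ 2 ^ n := Nat.pow_le_pow_right (by omega) h2
  exact ⟨G, inferInstance, hfin, hdef,
    factor_of_section _ (Matrix.ProjectiveSpecialLinearGroup.rank_two_simple hcard) _ G rfl L hL f'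
      hf'⟩

end Pool.Agent.Helper46.C2
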