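import Pool.Agent.Helper10.C2.M_GC
import Pool.Agent.Helper19.C2.M_EXI
import Pool.Agent.Helper2.C2.M_IN
import Pool.Agent.Helper2.C2.M_TG
import Pool.Agent.Helper22.C2.M_GB
import Pool.Agent.Helper26.C2.M_EV
import Pool.Agent.Helper28.C2.M_HOM
import Pool.Agent.Helper29.C2.M_TX
import Pool.Agent.Helper32.C2.M_PB
import Pool.Agent.Helper34.C2.M_XB
import Pool.Agent.Helper36.C2.M_GA
import Pool.Agent.Helper39.C2.M_CH
import Pool.Agent.Helper40.C2.M_SID
import Pool.Agent.Helper5.C2.M_FIB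
import Pool.Agent.Helper6.C2.M_GD
import Pool.Agent.Helper67.C2.M_C4
import Pool.Agent.Helper7.C2.M_PA
import Pool.Agent.Helper72.C2.M_XC
import Pool.Agent.Helper75.C2.M_SM
import Pool.Agent.Helper76.C2.M_UL
import Pool.Agent.Helper78.C2.M_LF
import Pool.Agent.Helper8.C2.M_CEL
import Pool.Agent.Helper80.C2.M_NUM
import Pool.Agent.Helper81.C2.M_XA
import Pool.Agent.Helper84.C2.M_OD
import Pool.Agent.Helper87.C2.M_RL
import Pool.Agent.Helper89.C2.M_CRT
import Pool.Agent.Helper94.C2.M_XE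
import Pool.Agent.Helper95.C2.M_RU
import Pool.Agent.Helper72.AY.M_UNA
import Pool.Agent.Helper51.AY.M_PFA
import Pool.Agent.Helper67.AY.M_WMA
import Pool.Agent.Helper64.AY.M_AUA
import Pool.Agent.Helper75.AY.M_CMB2
import Pool.Agent.Helper2.AX.M_EX
import Pool.Agent.Helper72.GD.M_RR
import Pool.Agent.Helper36.GD.M_ST
import Pool.Agent.Helper78.GD.M_P1
import Pool.Agent.Helper81.GD.M_P2
import Pool.Agent.Helper40.GD.M_P3
import Pool.Agent.Helper85.GD.M_HAT
import Pool.Agent.Helper12.GD.M_CT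
import Pool.Agent.Helper46.C2.Asm

/-! Project C2: all modules together. -/

set_option autoImplicit false

namespace Pool.Agent.Helper46.C2

open Pool.Agent Pool.Agent.Helper41.DZ

theorem toRf {L : Type} [CommRing L] {x : Lˣ} (h : Helper43.AX.RF L x) : Helper50.AY.Rf L x :=
  ⟨h.fin, h.sq⟩

theorem gRR : Helper43.GD.StRR := Helper72.GD.hRR
theorem gST : Helper43.GD.StST := Helper36.GD.hST
theorem gP1 : Helper43.GD.StP1 := Helper78.GD.hP1 gRR gST
theorem gP2 : Helper43.GD.StP2 := Helper81.GD.hP2 gST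
theorem gP3 : Helper43.GD.StP3 := Helper40.GD.hP3
theorem gHAT : Helper43.GD.StHAT := Helper85.GD.hHAT
theorem gCT : Helper43.GD.StCT := Helper12.GD.hCT
theorem yCMB2 : Helper50.AY.StCMB2 := Helper75.AY.hCMB2 gP3
theorem yPFA : Helper50.AY.StPFA := Helper51.AY.hPFA
theorem yWMA : Helper50.AY.StWMA := Helper67.AY.hWMA
theorem yUNA : Helper50.AY.StUNA := Helper72.AY.hUNA
theorem yAUA : Helper50.AY.StAUA := Helper64.AY.hAUA yUNA yPFA yWMA gCT

theorem xWM : Helper43.AX.StWM :=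
  ⟨fun L H _ _ x s h => yPFA L H x s (toRf h), fun L H _ _ x s h => yWMA L H x s (toRf h)⟩

theorem xAU : Helper43.AX.StAU :=
  fun L H _ _ x s h hs => yAUA L H x s (toRf h) hs

theorem pGA : StGA := Helper36.C2.hGA
theorem pGB : StGB := Helper22.C2.hGB
theorem pGC : StGC := Helper10.C2.hGC pGA pGB
theorem pXA : StXA := Helper81.C2.hXA
theorem pXB : StXB := Helper34.C2.hXB
theorem pXC : StXC := Helper72.C2.hXC
theorem pXE : StXE := Helper94.C2.hXE pGA pGC pXA pXB pXC
theorem pGD : StGD := Helper6.C2.hGD pGA pGB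
theorem pLF : StLF := Helper78.C2.hLF
theorem pOD : StOD := Helper84.C2.hOD pLF
theorem pC4 : StC4 := Helper67.C2.hC4 pLF
theorem pEV : StEV := Helper26.C2.hEV
theorem pRU : StRU := Helper95.C2.hRU gP1 gP2 yCMB2
theorem pSM : StSM := Helper75.C2.hSM pRU pLF pOD
theorem pSID : StSID := Helper40.C2.hSID
theorem pHOM : StHOM := Helper28.C2.hHOM pLF pC4
theorem pNUM : StNUM := Helper80.C2.hNUM
theorem pFIB : StFIB := Helper5.C2.hFIB pLF
theorem pCH : StCH := Helper39.C2.hCH pFIB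
theorem pEXI : StEXI := Helper19.C2.hEXI pLF pC4 pFIB pCH pHOM pSID pNUM
theorem pUL : StUL := Helper76.C2.hUL pRU pSM pEXI pEV pLF pOD
theorem pCRT : StCRT := Helper89.C2.hCRT
theorem pRL : StRL := Helper87.C2.hRL pCRT gRR
theorem pCEL : StCEL := Helper8.C2.hCEL pRL pCRT
theorem pIN : StIN := Helper2.C2.hIN pLF pC4 pUL pCEL gHAT xAU xWM
theorem pPA : StPA := Helper7.C2.hPA Helper2.AX.hEX pIN
theorem pPB : StPB := Helper32.C2.hPB pXE pGD pPA
theorem pTX : StTX := Helper29.C2.hTX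
theorem pTG : StTG := Helper2.C2.hTG pTX

theorem all (n : ℕ) (h2 : 2 ≤ n) :
    ∃ (G : Type) (_ : Group G), Finite G ∧ DeficiencyZero G ∧
      IsCompositionFactor (Matrix.ProjectiveSpecialLinearGroup (Fin 2) (GaloisField 2 n)) G :=
  main pPB pTG n h2

end Pool.Agent.Helper46.C2
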