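import Pool.Agent.Helper43.AX.St
import Pool.Agent.Helper50.AY.St

/-!
PROJECT C2 (MP_b3ce06_al, replaces the hand-in PSLTwoPrimeDegree; Q1: which simple groups are
composition factors of finite groups of deficiency zero).

THEOREM.  For EVERY `n ≥ 2` the group `PSL(2, 2^n)` is a composition factor of a finite group of
deficiency zero, namely of
`G_k = ⟨a, w, t | a w a = w a w⁻¹, w⁻¹ t w = t⁻¹, a_1 = a_0 a_k⟩`, `a_i = t⁻ⁱ a tⁱ`, for every `k ≥ 2` such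
that `x^k = x + 1` for a generator `x` of the multiplicative group of the field with `2^n` elements.
(ALL the groups `G_k`, `k ≥ 2`, are finite.)

Notation.  `Sys`, `om`, `Weyl`, `IsTor`, `Fr`, `Q.U`, `Q.h`, `Q.In`, `Q.S`, `Gn`, `FinP`, `IsHat`, `cj`
(`cj a t i = t⁻ⁱ a tⁱ`) are those of project GD (`Pool/Agent/Helper43/GD/Defs.lean`, `St.lean`).  The
statements `StRR StST StP1 StP2 StP3 StHAT StCT` of GD, `StEX StUN StWM StAU` of AX and `StCMB2` of AY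
are PROVED (take them as hypotheses `(h : Pool.Agent.Helper43.GD.StP1)` etc.).

All modules are INDEPENDENT (the statements they use are hypotheses: prove
`theorem hXX (h1 : StYY) ... : StXX`).  In a module file: `import Pool.Agent.Helper46.C2.St`.
Useful everywhere (rule MULT): if `N` is an additive subgroup of a finite ring `L`, then
`M = {z : ∀ y ∈ N, z y ∈ N}` is a subring, and if a unit of `L` is in `M` then so is its inverse (a power).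
-/

set_option autoImplicit false

namespace Pool.Agent.Helper46.C2

open Pool.Agent.Helper43.GD Polynomial

/-! ### Group part -/

/-- the three relations -/
def Rel (k : ℕ) {G : Type} [Group G] (a w t : G) : Prop :=
  a * w * a = w * a * w⁻¹ ∧ w⁻¹ * t * w = t⁻¹ ∧ cj a t 1 = a * cj a t (k : ℤ)

/-- `e_j = t⁻ʲ (a² w²) tʲ` -/
def ee {G : Type} [Group G] (a w t : G) (j : ℤ) : G := cj (a * a * (w * w)) t j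

/-- MODULE GA (90 lines).
PROOF.  Put `h = w⁻¹ a w w`.  By the first relation `(aw)² = (a w a) w = w a`, so with `y = aw`:
`w y w⁻¹ = w a = y²`.  `h = w⁻¹ y w`, so `h² = w⁻¹ y² w = y`, `w h w⁻¹ = y = h²`, `a = h² w⁻¹`.
`e := a a w w = h² (w⁻¹ h² w) = h² h = h³`.  Let `z = w w`.  `w e w⁻¹ = h⁶ = e²`.  `w tʲ w⁻¹ = t⁻ʲ`
(second relation), so `w e_j w⁻¹ = tʲ (w e w⁻¹) t⁻ʲ = e_(-j)²`; `z e_j z⁻¹ = e_j⁴`; `z t = t z`.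
`a⁻¹ e a = w h⁻² h³ h² w⁻¹ = w h³ w⁻¹ = e²`; `h⁻² z h² = h⁶ z` (as `z h² = h⁸ z`), so
`a⁻¹ z a = w h⁻² z h² w⁻¹ = w h⁶ z w⁻¹ = h¹² z = e⁴ z`; `a a = e z⁻¹`; conjugate these three by `tʲ`
(`z` commutes with `t`). -/
def StGA : Prop :=
  ∀ (G : Type) [Group G] (k : ℕ) (a w t : G), Rel k a w t → ∀ j : ℤ,
    w * ee a w t j * w⁻¹ = ee a w t (-j) ^ 2 ∧
    (w * w) * ee a w t j * (w * w)⁻¹ = ee a w t j ^ 4 ∧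
    (w * w) * t = t * (w * w) ∧
    (cj a t j)⁻¹ * ee a w t j * cj a t j = ee a w t j ^ 2 ∧
    (cj a t j)⁻¹ * (w * w) * cj a t j = ee a w t j ^ 4 * (w * w) ∧
    cj a t j * cj a t j = ee a w t j * (w * w)⁻¹

/-- MODULE GB (90 lines).
PROOF.  Write `a_i = cj a t i`, `w_i = t⁻ⁱ w tⁱ = w t^(2i)` (`t⁻ⁱ w = w tⁱ`).
`w a_(-i) w⁻¹ = t⁻ⁱ (w a w⁻¹) tⁱ = t⁻ⁱ (a w a) tⁱ = a_i w_i a_i` (first relation).  The third relation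
conjugated by powers of `t`: `a_(j+1) = a_j a_(j+k)` for all `j`.  Conjugate
`a_(-i+1) = a_(-i) a_(-i+k)` by `w`: `a_(i-1) w_(i-1) a_(i-1) = a_i w_i a_i a_(i-k) w_(i-k) a_(i-k)`.  With
`i = k-1`: `a_(k-2) w_(k-2) a_(k-2) = a_(k-1) w_(k-1) (a_(k-1) a_(-1)) w_(-1) a_(-1)`.  Let
`b = a_(k-1) a_(-1)`; as `a_0 = a_(-1) a_(k-1)`, `b = a_(-1)⁻¹ a_0 a_(-1)` (the left side of the claim).  So
`b = w_(k-1)⁻¹ (a_(k-1)⁻¹ a_(k-2)) w_(k-2) (a_(k-2) a_(-1)⁻¹) w_(-1)⁻¹`, and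
`a_(k-1)⁻¹ a_(k-2) = a_(2k-2)⁻¹` (`j = k-2`), `a_(k-2) a_(-1)⁻¹ = a_(-2)⁻¹` (`j = -2`).
`w_(k-1)⁻¹ a_(2k-2)⁻¹ w_(k-1) = w⁻¹ a⁻¹ w` (`w_(k-1) = w t^(2k-2)`, `w⁻¹ a_m w = t^m (w⁻¹ a w) t^(-m)`),
`w_(k-1)⁻¹ w_(k-2) = t⁻²`, `t⁻² a_(-2)⁻¹ = a⁻¹ t⁻²`, `t⁻² w_(-1)⁻¹ = t⁻² t² w⁻¹ = w⁻¹`.  So
`b = (w⁻¹ a⁻¹ w) a⁻¹ w⁻¹`.  With `h = w⁻¹ a w w` (`h² = aw`, `w h w⁻¹ = h²`, `a = h² w⁻¹`,
`w⁻¹ a w = h w⁻¹`, see GA): `b = w h⁻¹ (w h⁻²) w⁻¹ = w h⁻¹ h⁻⁴ = w h⁻⁵`; and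
`a⁻¹ (a a w w)⁻¹ = w h⁻² h⁻³ = w h⁻⁵`. -/
def StGB : Prop :=
  ∀ (G : Type) [Group G] (k : ℕ) (a w t : G), Rel k a w t →
    (cj a t (-1))⁻¹ * a * cj a t (-1) = a⁻¹ * (a * a * (w * w))⁻¹

/-- MODULE GC (120 lines, uses GA GB).
PROOF.  `α = cj a t (-1)`, `β = a`, `γ = cj a t (k-1)`, `β = α γ` (third relation conjugated by `t⁻¹`),
`z = w w`, `X = e_0`, `Y = e_(-1)`, `Z = e_(k-1)`.
(1) `β = t⁻¹ α t = α γ`, so `α⁻¹ t⁻¹ α = γ t⁻¹`, `α⁻¹ t α = t γ⁻¹`.  `z t = t z` conjugated by `α`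
(`α⁻¹ z α = Y⁴ z`, GA): `Y⁴ z` commutes with `t γ⁻¹`, so `t⁻¹ Y⁴ z t = γ⁻¹ Y⁴ z γ`, i.e.
`X⁴ z = (γ⁻¹ Y⁴ γ)(γ⁻¹ z γ) = (γ⁻¹ Y⁴ γ) Z⁴ z` (`t⁻¹ Y t = X`), `γ⁻¹ Y⁴ γ = X⁴ Z⁻⁴`.
(2) `γ⁻¹ z γ = Z⁴ z` gives `z γ z⁻¹ = γ Z⁴`, so `z⁻¹ γ z = γ Z⁻¹` (`z⁻¹ Z⁴ z = Z`).  Conjugate
(1) by `z⁻¹`: `(γZ⁻¹)⁻¹ Y (γZ⁻¹) = X Z⁻¹` (`z⁻¹Y⁴z = Y` ...), so `γ⁻¹ Y γ = Z⁻¹ X =: P`.
(3) `P⁴ = γ⁻¹ Y⁴ γ = X⁴ Z⁻⁴`: first claim.
(4) `β⁻¹ Y β = γ⁻¹ α⁻¹ Y α γ = γ⁻¹ Y² γ = P²` (GA: `α⁻¹Yα = Y²`).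
(5) GB: `α⁻¹ β α = β⁻¹ X⁻¹`, so `γ = α⁻¹ β = β⁻¹ X⁻¹ α⁻¹` and
`γ² = β⁻¹ X⁻¹ α⁻¹ α⁻¹ β = β⁻¹ X⁻¹ (z Y⁻¹) β = (β⁻¹X⁻¹β)(β⁻¹zβ)(β⁻¹Y⁻¹β) = X⁻² X⁴ z P⁻²` (`α² = Y z⁻¹`,
`β⁻¹Xβ = X²`, `β⁻¹zβ = X⁴z`).  `γ² = Z z⁻¹`.  So `Z z⁻¹ = X² z P⁻²`, `P² = z Z⁻¹ X² z`. -/
def StGC : Prop :=
  ∀ (G : Type) [Group G] (k : ℕ) (a w t : G), Rel k a w t →
    ((ee a w t ((k : ℤ) - 1))⁻¹ * ee a w t 0) ^ 4 =
      ee a w t 0 ^ 4 * (ee a w t ((k : ℤ) - 1) ^ 4)⁻¹ ∧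
    ((ee a w t ((k : ℤ) - 1))⁻¹ * ee a w t 0) ^ 2 =
      (w * w) * ((ee a w t ((k : ℤ) - 1))⁻¹ * ee a w t 0 ^ 2) * (w * w)

/-- MODULE XA (150 lines; computation in a group).
PROOF.  `X = x⁸`, `Z = v⁸`, `z = g²`, `ζ = g⁴`: `g X g⁻¹ = Z²`, `g Z g⁻¹ = X²`; `z` raises `x, v, X, Z` to
the 4th power (`z X z⁻¹ = X⁴`), `ζ` to the 16th: `ζ x = x¹⁶ ζ`, `ζ v = v¹⁶ ζ`.  `P = Z⁻¹ X`.
Hypotheses: (P1) `P⁴ = X⁴ Z⁻⁴`, (H3) `P² = z Z⁻¹ X² z`.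
(D1) H3: `P² = (z Z⁻¹ z⁻¹)(z X² z⁻¹) ζ = Z⁻⁴ X⁸ ζ`, so `ζ = X⁻⁸ Z⁴ P² = X⁻⁸ Z³ X Z⁻¹ X`.
(A1) Let `u = z X`.  `u P u⁻¹ = z (X P X⁻¹) z⁻¹ = z (X Z⁻¹) z⁻¹ = X⁴ Z⁻⁴ = P⁴`, so
`P⁸ = u P² u⁻¹ = z X (z P X z) X⁻¹ z⁻¹ = z X z P X X⁻⁴ = z X z P X⁻³` (H3: `P² = z P X z`;
`z X⁻¹ z⁻¹ = X⁻⁴`).  `P⁶ = P⁸ P⁻² = z X z P X⁻³ z⁻¹ X⁻¹ P⁻¹ z⁻¹` and
`P⁶ = P⁴ P² = (z X Z⁻¹ z⁻¹)(z P X z) = z X Z⁻¹ P X z`.  Cancel `z X`: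
`z P X⁻³ z⁻¹ X⁻¹ P⁻¹ z⁻¹ = Z⁻¹ P X z`, so `z P X⁻³ z⁻¹ · X⁻¹ P⁻¹ = Z⁻¹ P X ζ`.  With
`z P z⁻¹ = Z⁻⁴X⁴`, `z X⁻³ z⁻¹ = X⁻¹²`, `X⁻¹ P⁻¹ = X⁻² Z` the left side is `Z⁻⁴ X⁴ X⁻¹² X⁻² Z =
Z⁻⁴ X⁻¹⁰ Z`; the right side is `Z⁻² X² ζ`.  So `ζ = X⁻² Z⁻² X⁻¹⁰ Z`.
(D2) apply `g · g⁻¹` to D1: `ζ = Z⁻¹⁶ X⁶ Z² X⁻² Z²`, so `X⁶ Z² X⁻² = Z¹⁶ ζ Z⁻² = ζ Z⁻¹`
(`Z¹⁶ ζ = ζ Z`): `ζ = X⁶ Z² X⁻² Z`.
(c) compare A1 and D2: `X⁻² Z⁻² X⁻¹⁰ = X⁶ Z² X⁻²`, so `X⁸ Z² X⁸ = Z⁻²`.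
(b) apply `g · g⁻¹` to (c): `Z¹⁶ X⁴ Z¹⁶ = X⁻⁴`; conjugate by `z⁻²` (16th roots), which maps
`Z¹⁶ = v¹²⁸` to `v⁸` and `X⁴ = x³²` to `x²`: `v⁸ x² v⁸ = x⁻²`.
(a) D1: `ζ X⁻¹ = X⁻⁸ Z³ X Z⁻¹`, so `Z³ X Z⁻¹ = X⁸ ζ X⁻¹ = x⁶⁴ ζ x⁻⁸ = ζ x⁻⁴` (`x⁶⁴ ζ = ζ x⁴`).  With
`W = Z X Z⁻¹`: `Z² W = ζ x⁻⁴`, `Z² = ζ x⁻⁴ W⁻¹ = x⁻⁶⁴ ζ W⁻¹`.  D2: `ζ = x⁴⁸ Z² x⁻¹⁶ Z =
x⁻¹⁶ ζ W⁻¹ x⁻¹⁶ Z = ζ x⁻¹ W⁻¹ x⁻¹⁶ Z`, so `Z = x¹⁶ W x = x¹⁶ Z x⁸ Z⁻¹ x`, i.e.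
`Z x⁻¹ Z = x¹⁶ Z x⁸`.
(d) is D1. -/
def StXA : Prop :=
  ∀ (G : Type) [Group G] (x v g : G), g * x * g⁻¹ = v ^ 2 → g * v * g⁻¹ = x ^ 2 →
    ((v ^ 8)⁻¹ * x ^ 8) ^ 4 = (x ^ 8) ^ 4 * ((v ^ 8) ^ 4)⁻¹ →
    ((v ^ 8)⁻¹ * x ^ 8) ^ 2 = (g * g) * ((v ^ 8)⁻¹ * (x ^ 8) ^ 2) * (g * g) →
    v ^ 8 * x⁻¹ * v ^ 8 = x ^ 16 * v ^ 8 * x ^ 8 ∧
    v ^ 8 * x ^ 2 * v ^ 8 = (x ^ 2)⁻¹ ∧
    x ^ 64 * v ^ 16 * x ^ 64 = (v ^ 16)⁻¹ ∧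
    g ^ 4 = (x ^ 64)⁻¹ * v ^ 24 * x ^ 8 * (v ^ 8)⁻¹ * x ^ 8

/-- MODULE XB (120 lines; computation in a group; ALL EXPONENTS CHECKED by coset enumeration).
PROOF.  `i = v⁸ x²`, `i² = 1` by (b), `v⁸ = i x⁻²`.  (a) becomes
`i x⁻³ i = x¹⁶ i x⁸`  (J1); inverse: `i x³ i = x⁻⁸ i x⁻¹⁶`; rotations: `i x⁸ i = x⁻¹⁶ i x⁻³`,
`i x⁻⁸ i = x³ i x¹⁶`, `i x¹⁶ i = x⁻³ i x⁻⁸`.
`(i x⁸ i)² = i x¹⁶ i`: `x⁻¹⁶ i x⁻¹⁹ i x⁻³ = x⁻³ i x⁻⁸`, so `i x⁻¹⁹ i = x¹³ i x⁻⁵`  (J2); so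
`i x¹³ i = x⁻¹⁹ i x⁵` and `i x⁵ i = x¹⁹ i x¹³`.
`i x² i = (i x⁵ i)(i x⁻³ i) = x¹⁹ i x¹³ x¹⁶ i x⁸ = x¹⁹ (i x²⁹ i) x⁸`;
`i x²⁹ i = (i x¹⁶ i)(i x¹³ i) = x⁻³ i x⁻⁸ x⁻¹⁹ i x⁵ = x⁻³ (i x⁻²⁷ i) x⁵`;
`i x⁻²⁷ i = (i x⁻¹⁹ i)(i x⁻⁸ i) = x¹³ i x⁻⁵ x³ i x¹⁶ = x¹³ (i x⁻² i) x¹⁶`.
So `i x² i = x²⁹ (i x⁻² i) x²⁹`.  As `v¹⁶ = i x⁻² i x⁻²`: `i x⁻² i = v¹⁶ x²`, `i x² i = x⁻² v⁻¹⁶`, so
`v⁻¹⁶ = x³¹ v¹⁶ x³¹`.  With (c): `x³¹ v¹⁶ x³¹ = x⁶⁴ v¹⁶ x⁶⁴`, so `v¹⁶ x³³ v⁻¹⁶ = x⁻³³`  (I).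
Conjugate by `z = g²` (raises `x, v` to the 4th power): `v⁶⁴ x¹³² v⁻⁶⁴ = x⁻¹³²`.  By (I)
`v⁶⁴ = (v¹⁶)⁴` commutes with `x³³`, hence with `x¹³²`: `x²⁶⁴ = 1`.  Roots: `x' = z⁻¹ x z` satisfies
`x'⁴ = x` and `x'²⁶⁴ = 1`, so `x⁶⁶ = 1`; again `x'⁶⁶ = 1` gives `x³³ = x'¹³² = 1`.
`v² = g x g⁻¹`, so `v⁶⁶ = 1`, and `v' = z⁻¹ v z`, `v'⁴ = v`, `v'⁶⁶ = 1` gives `v³³ = 1`. -/
def StXB : Prop :=
  ∀ (G : Type) [Group G] (x v g : G), g * x * g⁻¹ = v ^ 2 → g * v * g⁻¹ = x ^ 2 →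
    v ^ 8 * x⁻¹ * v ^ 8 = x ^ 16 * v ^ 8 * x ^ 8 →
    v ^ 8 * x ^ 2 * v ^ 8 = (x ^ 2)⁻¹ →
    x ^ 64 * v ^ 16 * x ^ 64 = (v ^ 16)⁻¹ → x ^ 33 = 1 ∧ v ^ 33 = 1

/-- MODULE XC (80 lines; computation in a group).
PROOF.  Conjugate (c) by `z² = g⁴` (raises `x, v` to the 16th power): `x¹⁰²⁴ v²⁵⁶ x¹⁰²⁴ = v⁻²⁵⁶`;
`1024 = 31·33 + 1`, `256 = 8·33 - 8`: `x v⁻⁸ x = v⁸`, so `x⁻¹ v⁸ x⁻¹ = v⁻⁸`.  (b): `x² v⁸ x² = v⁻⁸`.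
So `x³ v⁸ x³ = v⁸`, `v⁸ x³ v⁻⁸ = x⁻³`  (I).  Conjugate by `z` (4th powers): `v³² x¹² v⁻³² = x⁻¹²`, but
`v³² = (v⁸)⁴` commutes with `x³` by (I), so `x²⁴ = 1`; with `x³³ = 1`: `x³ = 1`.  Now (a) reads
`v⁸ x² v⁸ = x v⁸ x²`, and the left side is `x⁻² = x` by (b), so `v⁸ x² = 1`, `v⁸ = x⁻² = x`. -/
def StXC : Prop :=
  ∀ (G : Type) [Group G] (x v g : G), g * x * g⁻¹ = v ^ 2 → g * v * g⁻¹ = x ^ 2 →
    v ^ 8 * x⁻¹ * v ^ 8 = x ^ 16 * v ^ 8 * x ^ 8 →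
    v ^ 8 * x ^ 2 * v ^ 8 = (x ^ 2)⁻¹ →
    x ^ 64 * v ^ 16 * x ^ 64 = (v ^ 16)⁻¹ → x ^ 33 = 1 → v ^ 33 = 1 → x ^ 3 = 1 ∧ v ^ 8 = x

/-- MODULE XE (80 lines, uses GA GC XA XB XC).
PROOF.  `X = e_0 = a a w w`, `Z = e_(k-1)`, `g = t^(-(k-1)) w`.  By GA
`g X g⁻¹ = t^(-(k-1)) X² t^(k-1) = Z²`, `g Z g⁻¹ = t^(-(k-1)) e_(1-k)² t^(k-1) = X²`,
`g g = t^(-(k-1)) (w t^(-(k-1)) w⁻¹) w w = w w`.  `x = g⁻³ Z g³`, `v = g⁻³ X g³`: `g x g⁻¹ = g⁻² Z g² = v²`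
(`v² = g⁻³ X² g³ = g⁻³ (g Z g⁻¹) g³`), in the same way `g v g⁻¹ = x²`, and `x⁸ = g⁻³ Z⁸ g³ = X` (`g³ X g⁻³ =
g² Z² g⁻² = g X⁴ g⁻¹ = Z⁸`), `v⁸ = Z`.  GC and `g g = w w` give the hypotheses of XA.  XB, XC:
`x³ = 1`, `v⁸ = x`.  XA (d): `g⁴ = x⁻⁶⁴ v²⁴ x⁸ v⁻⁸ x⁸ = x⁻¹ · 1 · x² · x⁻¹ · x² = x²` (exponents of `x` mod
3) `= x⁸ = X`.  `w` commutes with `g⁴ = (w w)(w w)`, so `w X w⁻¹ = X`; but `w X w⁻¹ = X²` (GA with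
`j = 0`).  So `X = 1`. -/
def StXE : Prop :=
  ∀ (G : Type) [Group G] (k : ℕ) (a w t : G), Rel k a w t → a * a * (w * w) = 1

/-- MODULE GD (100 lines, uses GA GB).
PROOF.  All `e_j = 1`.  `z = w w` commutes with `a` and `t` (GA), `a a = z⁻¹`.  `α = cj a t (-1)` commutes
with `z`.  GB: `α⁻¹ a α = a⁻¹`; squares: `α⁻¹ z⁻¹ α = z`, so `z⁻¹ = z`, `a a = z`, `a⁻¹ = a z = z a`.  So
`a α = α a⁻¹ = α a z`.  Let `D = {m : ℤ | a a_m = a_m a ∨ a a_m = a_m a z}` (`a_m = cj a t m`);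
`z` is central and `z z = 1`, so (conjugating by `t^i`) `a_i, a_j` commute up to `z` iff `j - i ∈ D`,
`D = -D`; `0 ∈ D`, `-1 ∈ D`.  `a_(j+1) = a_j a_(j+k)` for all `j`, so if two of `j, j+1, j+k` are in `D`
then so is the third.  `0, 1, -1 ∈ D`; `j = 0`: `k ∈ D`; `j = -k-1`: `-k, -1 ∈ D` so `-k-1 ∈ D`, `k+1 ∈ D`.
Induction on `n ≥ 0`: `n, n+1, k+n, k+n+1 ∈ D`: the pattern `{n+1, n+2, k+n+1}` gives `n+2 ∈ D`, the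
pattern `{-k-n-2, -k-n-1, -n-2}` gives `k+n+2 ∈ D`. -/
def StGD : Prop :=
  ∀ (G : Type) [Group G] (k : ℕ) (a w t : G), Rel k a w t → a * a * (w * w) = 1 →
    (w * w) * (w * w) = 1 ∧ a * a = w * w ∧ (w * w) * a = a * (w * w) ∧ (w * w) * t = t * (w * w) ∧
    ∀ i j : ℤ, cj a t i * cj a t j = cj a t j * cj a t i ∨
      cj a t i * cj a t j = cj a t j * cj a t i * (w * w)

/-- The relations modulo the central subgroup `⟨w²⟩`. -/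
structure Rel0 (k : ℕ) {G : Type} [Group G] (a w t : G) : Prop where
  ww : w * w = 1
  aa : a * a = 1
  r1 : a * w * a = w * a * w⁻¹
  r2 : w⁻¹ * t * w = t⁻¹
  r3 : cj a t (k : ℤ) = a * cj a t 1
  com : ∀ i j : ℤ, cj a t i * cj a t j = cj a t j * cj a t i

/-! ### The rings -/

/-- `L = F₂[x]` with `x^k = x + 1`, `k ≥ 2`. -/
structure R2 (k : ℕ) (L : Type) [CommRing L] (x : Lˣ) : Prop where
  k2 : 2 ≤ k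
  two : (2 : L) = 0
  xk : (x : L) ^ k = (x : L) + 1
  gn : Gn (x : L)

/-- MODULE LF (50 lines).
PROOF.  The finite set `N` of all sums `Σ_(i ∈ S) x^i`, `S ⊆ {0..k-1}` (the additive closure of
`1, x, …, x^(k-1)`; every element has order 2) is an additive subgroup, contains `1`, and is stable under
`x` as `x · x^(k-1) = x + 1`, `k ≥ 2`.  `Gn`: `N = L`. -/
def StLF : Prop :=
  ∀ (k : ℕ) (L : Type) [CommRing L] (x : Lˣ), R2 k L x → Finite L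

/-- MODULE OD (80 lines, uses LF).
PROOF.  `φ(y) = y²` is a ring endomorphism (`2 = 0`).  `L` is finite, so `x^(2^(s+m)) = x^(2^s)` for some
`s` and `m ≥ 1` (pigeonhole).  `y = x^(2^m) = φ^m x` satisfies `y^k = y + 1` and `(y - x)^(2^s) = 0`.  Let
`ε = y - x`, nilpotent.  `(x + ε)^k - x^k = ε (k x^(k-1) + ε c)` for some `c` (binomial theorem), so
`0 = (y^k - y - 1) - (x^k - x - 1) = ε (k x^(k-1) - 1 + ε c)`.  `k x^(k-1) - 1` is a unit: for `k` even it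
is `-1`; for `k` odd it is `x^(k-1) - 1 = x⁻¹ (x^k - x) = x⁻¹`.  A unit plus a nilpotent is a unit, so
`ε = 0`: `x^(2^m) = x`.  `{y : y^(2^m) = y}` is an additive subgroup (`φ^m` is additive), contains `1`,
stable under `x`: `Gn`. -/
def StOD : Prop :=
  ∀ (k : ℕ) (L : Type) [CommRing L] (x : Lˣ), R2 k L x → ∃ m : ℕ, 1 ≤ m ∧ ∀ y : L, y ^ (2 ^ m) = y

/-- MODULE C4 (60 lines, uses LF).
PROOF.  `K = L ⧸ I` is a finite field with `2 = 0`, so it has `2^f` elements, `f ≥ 1`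
(`FiniteField.card`).  If `f = 1` then every element is `0` or `1`; the image `ξ` of `x` is not zero (a
unit), so `ξ = 1`, `1 = ξ^k = ξ + 1 = 0`, a contradiction. -/
def StC4 : Prop :=
  ∀ (k : ℕ) (L : Type) [CommRing L] (x : Lˣ), R2 k L x → ∀ I : Ideal L, I.IsMaximal →
    ∃ f : ℕ, 2 ≤ f ∧ Nat.card (L ⧸ I) = 2 ^ f

/-- MODULE EV (40 lines; compare AY.StEV, `Pool/Agent/Helper82/AY`).
PROOF.  `L` trivial: every map is a ring homomorphism.  Else `CharP L 2`, `ZMod.castHom` and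
`Polynomial.eval₂RingHom`.  Surjective: the range is an additive subgroup with `1`, stable under `x`. -/
def StEV : Prop :=
  ∀ (k : ℕ) (L : Type) [CommRing L] (x : Lˣ), R2 k L x →
    ∃ ev : (ZMod 2)[X] →+* L, ev X = (x : L) ∧ Function.Surjective ev

/-! ### The Weyl group is everything -/

/-- MODULE RU (150 lines, uses GD.StP1 GD.StP2 AY.StCMB2).
PROOF.  Characteristic 2, signs do not matter.  `ξ, η` are units in `U`.  `y = η/ξ ∈ U`,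
`u = (1+y)⁻¹` (a unit as `1 + y = (ξ+η)/ξ`).
(i) P1 with `v = (y-1)u = 1 ∈ U`: `S u y`.
(ii) `ρ = (1+ξ)/(1+η) ∈ U`; `(ρ - 1) u = (ξ+η)/(1+η) · ξ/(ξ+η) = ξ/(1+η) ∈ U`; P1: `S u ρ`.
(iii) P1 with `(y² - 1) u² = 1`: `S (u²) (y²)`; `y = (y²)^(2^(m-1))`, so `S (u²) y` (`Fr.S_pow`);
P2 with `v = u⁻¹` (`u⁻¹ (1-y) u² = 1`): `S u⁻¹ y`.
CMB2 with `s = s' = y` (`1 - y` is a unit).  Its last hypothesis: let `N ∋ 1` be stable under `Ŝ(u)`, `M` its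
multiplier ring (MULT); `y, ρ ∈ M`; `1 + yρ = (ξ+η)/(ξ(1+η))` is a unit and `(1+ρ)/(1+yρ) = ξ`
(`1 + ρ = (ξ+η)/(1+η)`), so `ξ ∈ M`, `η = yξ ∈ M`; by hypothesis `N = L`.  So `u ∈ U` and
`ξ + η = ξ u⁻¹`. -/
def StRU : Prop :=
  ∀ (L A : Type) [CommRing L] [Group A] (Q : Fr L A) (m : ℕ) (ξ η : L), Finite L → (2 : L) = 0 →
    1 ≤ m → (∀ y : L, y ^ (2 ^ m) = y) → Q.In ξ → Q.In η → Q.In (1 + ξ) → Q.In (1 + η) →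
    IsUnit (ξ + η) →
    (∀ N : AddSubgroup L, (1 : L) ∈ N → (∀ y ∈ N, ξ * y ∈ N) → (∀ y ∈ N, η * y ∈ N) →
      ∀ y, y ∈ N) → Q.In (ξ + η)

/-- MODULE SM (150 lines, uses RU LF OD).
PROOF.  `Q.In` is stable under products and inverses; `x, 1+x = x^k` are in `U`.  By irreducibility
`p(0) = p(1) = 1` (`X ∤ p`, `X+1 ∤ p`), and in degree 4 `p ≠ X⁴+X²+1 = (X²+X+1)²`; so `p` is one of the
following, with `ξ, η` for RU (`s = x`, `x⁻¹` or `1+x`; in all cases `ξ, η, 1+ξ, 1+η` are products of powers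
of `x` and `1+x`, and `ev p = (ξ+η) ·` such a product):
`X²+X+1`: `ξ = 1+x² = (1+x)²`, `η = x`.
`X³+X+1`: `ξ = 1+x²`, `η = x⁻¹`: `ξ+η = (x³+x+1)/x`.
`X³+X²+1`: `ξ = 1+x⁻²`, `η = x`: `ξ+η = (x³+x²+1)/x²`.
`X⁴+X+1`: `ξ = 1+x⁴`, `η = x`.
`X⁴+X³+1`: `ξ = 1+x⁻⁴`, `η = x⁻¹`: `ξ+η = (x⁴+x³+1)/x⁴`.
`X⁴+X³+X²+X+1`: with `s = 1+x`: `ξ = 1+s⁻⁴ = x⁴/s⁴`, `η = s⁻¹`: `ξ+η = (s⁴+s³+1)/s⁴` and
`s⁴+s³+1 = x⁴+x³+x²+x+1`.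
The last hypothesis of RU: the multiplier ring of `N` contains `η`, so `x` (MULT), and `Gn x`. -/
def StSM : Prop :=
  ∀ (k : ℕ) (L A : Type) [CommRing L] [Group A] (Q : Fr L A) (x : Lˣ), R2 k L x → x ∈ Q.U →
    ∀ ev : (ZMod 2)[X] →+* L, ev X = (x : L) →
    ∀ p : (ZMod 2)[X], Irreducible p → 2 ≤ p.natDegree → p.natDegree ≤ 4 → IsUnit (ev p) →
      Q.In (ev p)

/-- MODULE SID (70 lines).
PROOF.  `R = {α : α^k = α + 1}`; `0 ∉ R` as `k ≥ 1`.  Let `α ≠ β` in `R`, `ζ = β/α ≠ 0, 1`.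
`ζ^k α^k = β^k = β + 1 = ζα + 1` and `α^k = α + 1` give `α (ζ^k - ζ) = 1 - ζ^k`; if `ζ^k = ζ` then
`ζ^k = 1`, `ζ = 1`, a contradiction.  So `α = (1-ζ^k)/(ζ^k-ζ)` and `β = ζα` are determined by `ζ`: the map
`(α, β) ↦ β/α` from the ordered pairs of distinct elements of `R` to `K ∖ {0, 1}` is injective. -/
def StSID : Prop :=
  ∀ (K : Type) [Field K] [Finite K] (k : ℕ), (2 : K) = 0 → 1 ≤ k →
    Nat.card {α : K // α ^ k = α + 1} * (Nat.card {α : K // α ^ k = α + 1} - 1) + 2 ≤ Nat.card K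

/-- the number of maximal ideals with `2^f` residues -/
noncomputable def NF (L : Type) [CommRing L] (f : ℕ) : ℕ :=
  Nat.card {I : Ideal L // I.IsMaximal ∧ Nat.card (L ⧸ I) = 2 ^ f}

/-- MODULE HOM (150 lines, uses LF C4).
PROOF.  `K = GaloisField 2 h`.  `Φ = {ring homomorphisms φ : L → K}`; `φ ↦ φ(x)` maps `Φ` to
`{α : α^k = α+1}`, injectively (`Gn x`: the equalizer of two homomorphisms is everything).  For a maximal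
ideal `I` with `|L/I| = 2^f`, `f ∣ h`: there is an embedding `ι : L/I → K` (finite fields of the same
characteristic, `f ∣ h`; e.g. `L/I ≃ GaloisField 2 f`, and the roots of the minimal polynomial of the
image of `x` are in `K`, or `FiniteField.nonempty_algHom_of_finrank_dvd`).  The homomorphisms
`Frob^j ∘ ι ∘ mk`, `0 ≤ j < f`, have kernel `I`, and they are distinct: `ι(ξ)^(2^i) = ι(ξ)^(2^j)` with
`i < j < f` gives `ξ^(2^(j-i)) = ξ` (Frobenius is injective), so (`ξ` = image of `x` generates `L/I`)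
`y^(2^(j-i)) = y` for all `y ∈ L/I`, which has `2^f > 2^(j-i)` elements, a contradiction to the number of
roots of `Y^(2^(j-i)) - Y`.  So `(I, j) ↦ φ` is injective on `⋃_(f ∈ F) {I} × {0..f-1}`. -/
def StHOM : Prop :=
  ∀ (k : ℕ) (L : Type) [CommRing L] (x : Lˣ), R2 k L x → ∀ h : ℕ, 1 ≤ h → ∀ F : Finset ℕ,
    (∀ f ∈ F, f ∣ h ∧ 1 ≤ f) →
    ∑ f ∈ F, f * NF L f ≤ Nat.card {α : GaloisField 2 h // α ^ k = α + 1}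

/-- MODULE NUM (200 lines, numbers only).
PROOF.  `ρ_f(ρ_f - 1) + 2 ≤ 2^f` gives `ρ_2 ≤ 2`, `ρ_3 ≤ 3`, `ρ_4 ≤ 4`, `ρ_5 ≤ 6`, `ρ_6 ≤ 8`, `ρ_7 ≤ 11`,
`ρ_8 ≤ 16`, and `ρ_(2g) ≤ 2^g`, `2 ρ_(2g+1) ≤ 3·2^g` (if `2ρ ≥ 3h+1`, `h = 2^g`, then
`4ρ(ρ-1) ≥ (3h+1)(3h-1) = 9h² - 1 > 4(2h² - 2)`).  So `N_3, N_4, N_5, N_6, N_7 ≤ 1`, `N_8 ≤ 2`.
Put `s_D = Σ_(f=5..D) 3 N_f 2^(-f)` (rational).  For `g ≥ 2`:
`3 N_(2g+1)/2^(2g+1) ≤ (9/4)/((2g+1) 2^g) ≤ (9/20) 2^(-g)`,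
`3 N_(2g+2)/2^(2g+2) ≤ 3/((2g+2) 2^(g+1)) ≤ (1/4) 2^(-g)`; so `s_D ≤ (7/10) Σ_(g≥2) 2^(-g) = 7/20`
(induction: `s_(2g+2) ≤ 7/20 - (7/10) 2^(-g)`, `s_(2g+1) ≤ 7/20 - (1/4) 2^(-g) - …`).
(2) The sum divided by `2^D` is `≤ 3/8 + 3/16 + 7/20 < 1`.
(3) `N_2 ≥ 1` gives `N_4 = 0` (`2N_2 + 4N_4 ≤ ρ_4 ≤ 4`).  `D = 4, 5, 6, 7, 8`: the sums are at most
`3 < 4`, `3 + 3 < 8`, `6 + 3 + 3 < 16`, `12 + 3 + 3 + 3 < 32`, `24 + 6 + 3 + 3 + 6 < 64`.  `D ≥ 9`: the sum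
divided by `2^(D-2)` is `≤ 3/8 + s_D + t_(D-1) + 3 t_D` with `t_f = 3 N_f 2^(-f)` (for `f = D-1, D` the
term is `3 N_f 2^(-(D-2))`), and `t_f ≤ 1/32` for `f ≥ 8`: `≤ 3/8 + 7/20 + 4/32 < 1`. -/
def StNUM : Prop :=
  ∀ (N ρ : ℕ → ℕ), (∀ f, 1 ≤ f → f * N f ≤ ρ f) → 2 * N 2 + 4 * N 4 ≤ ρ 4 →
    (∀ f, 1 ≤ f → ρ f * (ρ f - 1) + 2 ≤ 2 ^ f) →
    N 2 ≤ 1 ∧
    (∀ D : ℕ, ∑ f ∈ Finset.Icc 3 D, 3 * N f * 2 ^ (D - f) < 2 ^ D) ∧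
    (1 ≤ N 2 → ∀ D : ℕ, 4 ≤ D →
      ∑ f ∈ Finset.Icc 3 D, 3 * N f * 2 ^ (D - 2 - f) < 2 ^ (D - 2))

/-- MODULE FIB (120 lines, uses LF).
PROOF.  `K = L ⧸ I`, a field with `2^f` elements, `ξ` = image of `x`, `K = F₂[ξ]` (`Gn x`).  `φ(g)` = the
class of `ev g`, an additive map from the polynomials of degree `< n` (`2^n` elements) to `K`.
`f ≤ n`: `φ` is surjective: the minimal polynomial `P` of `ξ` over `ZMod 2` has degree `f`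
(`2^(deg P) = |F₂[ξ]| = |K|`) and every element of `K` is the value at `ξ` of a polynomial, which can be
reduced mod `P`.  So each fibre is a coset of the kernel, of order `2^n/2^f`.  `f > n`: `φ` is injective (a
polynomial of degree `< f` vanishing at `ξ` is divisible by `P`, so `0`), fibres have at most one
element. -/
def StFIB : Prop :=
  ∀ (k : ℕ) (L : Type) [CommRing L] (x : Lˣ), R2 k L x → ∀ ev : (ZMod 2)[X] →+* L,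
    ev X = (x : L) → ∀ (I : Ideal L) (f : ℕ), I.IsMaximal → Nat.card (L ⧸ I) = 2 ^ f →
    ∀ (n : ℕ) (s : L),
      Nat.card {g : Polynomial.degreeLT (ZMod 2) n // ev (g : (ZMod 2)[X]) - s ∈ I} ≤ 2 ^ (n - f)

/-- MODULE CH (90 lines, uses FIB).
PROOF.  Fix `I ∈ S`, `j`.  `ev q` is invertible modulo `I`: `c · ev q - 1 ∈ I`.  If
`ev (A₀ + q g) - r I j ∈ I` then `ev g - s ∈ I` with `s = c (r I j - ev A₀)`; by FIB at most `2^(n - f I)`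
polynomials `g` of degree `< n` have this property.  There are `2^n` polynomials of degree `< n`
(`Polynomial.degreeLT`, `Polynomial.degreeLTEquiv`), more than the total number of bad ones. -/
def StCH : Prop :=
  ∀ (k : ℕ) (L : Type) [CommRing L] (x : Lˣ), R2 k L x → ∀ ev : (ZMod 2)[X] →+* L,
    ev X = (x : L) → ∀ (n : ℕ) (q A₀ : (ZMod 2)[X]) (S : Finset (Ideal L)) (f : Ideal L → ℕ),
    (∀ I ∈ S, I.IsMaximal ∧ Nat.card (L ⧸ I) = 2 ^ f I ∧ ev q ∉ I) →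
    ∀ r : Ideal L → Fin 3 → L, ∑ I ∈ S, 3 * 2 ^ (n - f I) < 2 ^ n →
    ∃ g : (ZMod 2)[X], g.degree < n ∧ ∀ I ∈ S, ∀ j : Fin 3, ev (A₀ + q * g) - r I j ∉ I

/-- MODULE EXI (200 lines, uses LF C4 FIB CH HOM SID NUM).
PROOF.  `D = natDegree p - 1 ≥ 4`.  `N = NF L`, `ρ f = Nat.card {α : GaloisField 2 f // α^k = α+1}`: HOM (with
`h = f`, `F = {f}`, and `h = 4`, `F = {2,4}`) and SID (`GaloisField.card`) give the hypotheses of NUM.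
Elements of `L` are units iff they are in no maximal ideal; by C4 the maximal ideals `I` have `2^f`
residues, `f = f_I ≥ 2`.  For `a` monic of degree `D` let `b = p + X a`, `b' = p + (X+1) a`: nonzero (`p` is
irreducible of degree `≥ 2`) of degree `≤ D` (leading terms cancel).  If `f_I > D`: `ev a, ev b, ev b' ∉ I` by
FIB with `n = D + 1 ≤ f_I`, `s = 0`: at most `2^0 = 1` polynomial of degree `≤ D` is in `I`, namely `0`.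
If `f_I ≤ D`: `a, b, b'` are not in `I` iff `ev a - r_j ∉ I` for `r_0 = 0`, `r_1 = ev p · x⁻¹`,
`r_2 = ev p · (1+x)⁻¹` (`1 + x = x^k` is a unit).
Case A: `N 2 = 0`: all `f_I ≥ 3`.  CH with `n = D`, `q = 1`, `A₀ = X^D`, `S` = all maximal ideals with
`f_I ≤ D`: the sum is `Σ_(f=3..D) N_f · 3 · 2^(D-f) < 2^D` (NUM).  `a = X^D + g`.
Case B: `N 2 = 1`: one ideal `I₂` with 4 residues; there `x² + x + 1 ∈ I₂` (`ξ ∈ F₄ ∖ {0,1}`).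
`q = X²+X+1`, `A₀ = X^D + c₀` with `c₀` of degree `< 2` and `q ∣ X^D + c₀ - p` (`c₀ = (p - X^D) %ₘ q`).
CH with `n = D - 2`, `S` = maximal ideals with `3 ≤ f_I ≤ D`; `ev q ∉ I` for these (else `ξ² = ξ + 1`
and `ξ` has degree `≤ 2`, `L/I = F₂[ξ]` would have at most 4 elements).  The sum is
`Σ_(f=3..D) N_f · 3 · 2^(D-2-f) < 2^(D-2)` (NUM).  `a = A₀ + q g` is monic of degree `D`
(`2 + (D-2) ≤ D`: `deg (q g) < D`).  At `I₂`: `ev a ≡ ev p`, `ev b ≡ ev p (1+x)`, `ev b' ≡ ev p · x`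
(characteristic 2), all units mod `I₂`. -/
def StEXI : Prop :=
  ∀ (k : ℕ) (L : Type) [CommRing L] (x : Lˣ), R2 k L x → ∀ ev : (ZMod 2)[X] →+* L,
    ev X = (x : L) → ∀ p : (ZMod 2)[X], Irreducible p → 5 ≤ p.natDegree → IsUnit (ev p) →
    ∃ a : (ZMod 2)[X], a.Monic ∧ a.natDegree + 1 = p.natDegree ∧ IsUnit (ev a) ∧
      IsUnit (ev (p + X * a)) ∧ IsUnit (ev (p + (X + 1) * a))

/-- MODULE UL (120 lines, uses RU SM EXI EV LF OD).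
PROOF.  `L` trivial: `u = 1`.  Otherwise `ev` from EV.  Claim: for all `p` with `IsUnit (ev p)`,
`Q.In (ev p)`; strong induction on `natDegree p`.  Degree 0: `p = 1`.  `p` reducible: a product of two
polynomials of smaller degree, whose values are units too.  `p` irreducible of degree 1: `X` or `X + 1`
(`1 + x = x^k`).  Degree 2, 3, 4: SM.  Degree `≥ 5`: `a` from EXI, `b = p + X a`, `b' = p + (X+1) a`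
have degree `< natDegree p` (both `p` and `X a`, `(X+1) a` are monic of the same degree, `2 = 0`), so
`a, b, b'` have values in `U` by induction.  RU with `ξ = x⁻¹`, `η = a/b` (values at `x`):
`1 + ξ = (1+x)/x`, `1 + η = (b+a)/b = b'/b`, `ξ + η = (b + x a)/(x b) = p/(x b)` (characteristic 2), a
unit; the last hypothesis: MULT and `Gn x`.  So `p = (ξ+η) x b` has value in `U`.
Every `u` is `ev p` for some `p`. -/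
def StUL : Prop :=
  ∀ (k : ℕ) (L A : Type) [CommRing L] [Group A] (Q : Fr L A) (x : Lˣ), R2 k L x → x ∈ Q.U →
    ∀ u : Lˣ, u ∈ Q.U

/-! ### Finiteness -/

/-- MODULE CRT (80 lines).
PROOF.  `L` is finite, so it has finitely many maximal ideals, pairwise coprime, and
`L → Π_I L/I` is surjective (`Ideal.quotientInfRingEquivPiQuotient` or
`Ideal.quotientInfToPiQuotient_surj`).  In the field `L/I` each condition `u_i κ + v_i ≠ 0` excludes at most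
one value of `κ` (none if `u_i ∈ I`, since then `v_i ∉ I`), and there are at least 4 values: choose one which
satisfies all three conditions.  A `κ ∈ L` with these residues works: an element in no maximal ideal is a
unit. -/
def StCRT : Prop :=
  ∀ (L : Type) [CommRing L] [Finite L], (∀ I : Ideal L, I.IsMaximal → 4 ≤ Nat.card (L ⧸ I)) →
    ∀ u v : Fin 3 → L, (∀ I : Ideal L, I.IsMaximal → ∀ i, u i ∉ I ∨ v i ∉ I) →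
    ∃ κ : L, ∀ i, IsUnit (u i * κ + v i)

/-- MODULE RL (90 lines, uses CRT GD.StRR; compare `GD.StRL`).
PROOF.  RR is the claim for units `a` (all units are in `U`).  General `a, b`: CRT gives `α ∈ L` such that
`α`, `a - α`, `1 + α b` are units (pairs `(1, 0)`, `(-1, a)`, `(b, 1)`).  Let `κ = a - α`, `d₁ = 1 + α b`.
`E(a) F(b) = E(κ) E(α) F(b) = E(κ) F(b/d₁) h(d₁)² E(α/d₁)` (RR for `α`), and RR for `(κ, b/d₁)`: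
`1 + κ b/d₁ = d/d₁`, so `E(κ) F(b/d₁) = F(b/d) h(d/d₁)² E(κ d₁/d)`.  Finally
`E(κd₁/d) h(d₁)² = h(d₁)² E(κ/(d₁ d))` and `κ/(d₁d) + α/d₁ = (κ + α d)/(d₁ d) = a(1 + αb)/(d₁ d) = a/d`
(`d = 1 + ab`, `κ = a - α`), and `h(d/d₁)² h(d₁)² = h(d)²` (`Fr.h_mul`). -/
def StRL : Prop :=
  ∀ (L A : Type) [CommRing L] [Group A] (Q : Fr L A), Finite L →
    (∀ I : Ideal L, I.IsMaximal → 4 ≤ Nat.card (L ⧸ I)) → (∀ u : Lˣ, u ∈ Q.U) →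
    ∀ (a b : L) (d : Lˣ), (d : L) = 1 + a * b →
    Q.E a * Q.F b = Q.F (((d⁻¹ : Lˣ) : L) * b) * (Q.h d * Q.h d) * Q.E (((d⁻¹ : Lˣ) : L) * a)

/-- MODULE CEL (120 lines, uses RL CRT; copy `GD.StCEL`: find its proof with
`grep -rl hCEL Pool/Agent/*/GD`).
PROOF.  As in GD.StCEL, with the following choice of `κ`: CRT for the pairs `(-b₁, 1 + c b₁)`, `(b₂, 1)`,
`(0, 1)`: `1 + (c-κ) b₁` and `1 + κ b₂` are units (if `b₁ ∈ I` then `1 + c b₁ ∉ I`). -/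
def StCEL : Prop :=
  ∀ (L A : Type) [CommRing L] [Group A] (Q : Fr L A), Finite L →
    (∀ I : Ideal L, I.IsMaximal → 4 ≤ Nat.card (L ⧸ I)) → (∀ u : Lˣ, u ∈ Q.U) → Finite Q.gp

/-- MODULE IN (80 lines, uses LF C4 UL CEL GD.StHAT AX.StAU AX.StWM; copy
`Pool/Agent/Helper19/AX/M_IN.lean`).
PROOF.  `AX.RF L x`: `L` is finite (LF), `x² - 1 = (x+1)² = x^(2k)` is a unit.  Universal `s : Sys L H` (HAT),
`Q` (AU), all units are in `Q.U` (UL), `2^f ≥ 4` (C4), so `Q.gp` is finite (CEL).  `Q.gp` is the range of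
`conj : H → MulAut H` (as `s.gp = ⊤`), whose kernel is the centre; `H` is perfect (WM), so `H` is finite by
Schur (`Pool.Agent.Helper60.DZ2.Red_schur`), and every `s'.gp` is contained in the image of `H`. -/
def StIN : Prop :=
  ∀ (k : ℕ) (L : Type) [CommRing L] (x : Lˣ), R2 k L x → FinP L x

/-- MODULE PA (150 lines, uses AX.StEX IN; compare the proof of `GD.StPA`).
PROOF.  AX.StEX (`m = k`; `a_k = a_0 a_1`, all `a_i` commute) gives `L, x, E` with `E` additive and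
injective, `E 1 = a`, `t⁻¹ E(c) t = E(x c)`, `Gn x`, `x^k = x + 1`; `E 2 = a a = 1 = E 0`, so `2 = 0` in `L`:
`R2 k L x`.  `F(b) = w E(b) w⁻¹`: a system `s` (`w⁻¹ = w`).  `s.om 1 = a (w a w⁻¹) a = a (a w a) a = w`
(`-1 = 1` in `L`).  Weyl 1: `w E(c) w⁻¹ = F(c)`, `w F(b) w⁻¹ = E(b)` (`w w = 1`, signs do not matter).
`t⁻¹` is a torus element with parameter `x`: `t⁻¹ F(b) t = w (t E(b) t⁻¹) w⁻¹ = F(x⁻¹ b)` (`t⁻¹ w = w t`).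
So `x` is a Weyl unit (`Sys.weyl_tor`, `u = 1`).  IN: `Γ = s.gp` is finite.  `a = E 1 ∈ Γ`,
`w = om 1 ∈ Γ`, `t⁻¹ w t w⁻¹ = t⁻² ∈ Γ` (`t⁻¹ om(1) t = om(x)`, `Sys.om_tor`); `t` normalizes `Γ`; so `Γ` is
normal and `G/Γ` is generated by the image of `t`, of order `≤ 2`.  So `G` is finite. -/
def StPA : Prop :=
  ∀ (G : Type) [Group G] (k : ℕ) (a w t : G), 2 ≤ k → Rel0 k a w t →
    Subgroup.closure {a, w, t} = (⊤ : Subgroup G) → Finite G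

/-- MODULE PB (80 lines, uses XE GD PA).
PROOF.  `z = w w` is central (it commutes with `a, w, t`) and `z z = 1` (XE, GD), so `C = zpowers z` is
finite and normal.  In `G/C`: `w w = 1`, `a a = 1`, the `cj a t i` commute, and the third relation
`a_1 = a a_k` gives `a_k = a⁻¹ a_1 = a a_1`.  PA: `G/C` is finite.  So `G` is finite. -/
def StPB : Prop :=
  ∀ (G : Type) [Group G] (k : ℕ) (a w t : G), 2 ≤ k → Rel k a w t →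
    Subgroup.closure {a, w, t} = (⊤ : Subgroup G) → Finite G

/-! ### Target -/

/-- MODULE TX (60 lines).
PROOF.  `K = GaloisField 2 n` has `2^n ≥ 4` elements, `Kˣ` is cyclic; `x` a generator.  `x ≠ 1` (order
`2^n - 1 ≥ 3`), so `x + 1 = x - 1 ≠ 0` is a power `x^k`, `k : ℕ`.  `k ≠ 0` (`x + 1 = 1` gives `x = 0`),
`k ≠ 1` (`x + 1 = x`).  `Gn x`: a subgroup containing `1` and stable under `x` contains all powers of `x`,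
so all nonzero elements. -/
def StTX : Prop :=
  ∀ n : ℕ, 2 ≤ n → ∃ (k : ℕ) (x : (GaloisField 2 n)ˣ), 2 ≤ k ∧
    (x : GaloisField 2 n) ^ k = (x : GaloisField 2 n) + 1 ∧ Gn (x : GaloisField 2 n)

/-- MODULE TG (150 lines, uses TX).
PROOF.  `K = GaloisField 2 n` (characteristic 2), `k, x` from TX, `μ ∈ Kˣ` with `μ² = x` (Frobenius is
surjective; `μ = x^(2^(n-1))`).  `T = SL(2,K)`, `E(c) = [1 c; 0 1]`, `a = E(1)`, `w = [0 1; 1 0]`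
(determinant `-1 = 1`), `t = diag(μ⁻¹, μ)`.  `t⁻ⁱ E(c) tⁱ = E(xⁱ c)`, so `cj a t i = E(x^i)`;
`E(x) = E(1) E(x^k)` as `x = 1 + x^k`; `w⁻¹ t w = t⁻¹`; `a w a = [1 0; 1 1] = w a w⁻¹` (characteristic 2).
If `f : G → T` maps generators `ga, gw, gt` of `G` to `a, w, t` then the range of `f` contains all
`E(x^i)`, so all `E(c)`, `c ∈ K` (`Gn x`), and `w E(c) w⁻¹ = [1 0; c 1]`, so it is `SL(2,K)` (transvections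
generate; compare `Pool/Agent/Helper11/GD/M_TG.lean`).  `Lc = ⊤`, `f'` = `f` followed by
`SL(2,K) → PSL(2,K)`. -/
def StTG : Prop :=
  ∀ n : ℕ, 2 ≤ n → ∃ k : ℕ, 2 ≤ k ∧
    ∃ (T : Type) (_ : Group T) (a w t : T), Rel k a w t ∧
      ∀ (G : Type) [Group G] (f : G →* T) (ga gw gt : G), f ga = a → f gw = w → f gt = t →
        Subgroup.closure {ga, gw, gt} = (⊤ : Subgroup G) →
        ∃ Lc : Subgroup G, Lc.Normal ∧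
          ∃ f' : Lc →* Matrix.ProjectiveSpecialLinearGroup (Fin 2) (GaloisField 2 n),
            Function.Surjective f'

end Pool.Agent.Helper46.C2
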